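import Mathlib
import Pool.Agent.Lib.helper32.WPC

set_option autoImplicit false

namespace Pool.Agent.Results.MP_45eb7b_gt.Counter

open Pool.Agent.Lib.helper32.WPC

theorem result : ∃ (G : Type) (_ : AddCommGroup G) (_ : TopologicalSpace G)
    (_ : IsTopologicalAddGroup G) (_ : T2Space G),
    WeaklyPseudocompact G ∧ OmegaBounded G ∧ ¬ Precompact G :=
  ⟨G, inferInstance, inferInstance, inferInstance, inferInstance, wpc, omegaBounded,
    not_precompact⟩

end Pool.Agent.Results.MP_45eb7b_gt.Counter
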